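import Pool.Agent.W192.HK.Asm0
import Pool.Agent.W216.CY.Div
import Pool.Agent.W287.HK.Basic
import Pool.Agent.W571.HK.Cls
import Pool.Agent.W53.HK.Fp
import Pool.Agent.W366.HK.Fpr
import Pool.Agent.W585.HK.LAT
import Pool.Agent.W692.HK.Ker
import Pool.Agent.W584.HK.CNT
import Pool.Agent.W513.HK.Divr
import Pool.Agent.W822.HK.MU
import Pool.Agent.W240.HK.Count
import Pool.Agent.W883.HK.Tail
import Pool.Agent.W930.HK.Mob
import Pool.Agent.W648.HK.Mainp0
import Pool.Agent.W240.HK.Dualp0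
import Pool.Agent.W768.HK.Finn0
import Pool.Agent.W856.HK.Dec
import Pool.Agent.W636.HK.Gauss
import Pool.Agent.W348.HK.Pois
import Pool.Agent.W644.HK.Theta0
import Pool.Agent.W283.HK.AFE0
import Pool.Agent.W513.HK.V
import Pool.Agent.W29.HK.Prod
import Pool.Agent.W283.HK.PW

/-!
# Central values of dihedral Artin L-functions: ray class characters of large order

`R` is the ring of integers of an imaginary quadratic field `K` (any class number), `ψ` a fixed
primitive ray class character of `K` of conductor `f`.  For all but finitely many primitive ray class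
characters `χ` of `K` of conductor `c` prime to `f` and of order at least `N(c) ^ (2/3 + δ)` some
Galois conjugate `χ ^ a` satisfies `|L(ψ χ ^ a, 1/2)| ≥ N(c) ^ (-δ)`.  Here `L(ψ χ ^ a, s)` is the
Artin L-function over `ℚ` of the two-dimensional representation induced from `ψ χ ^ a`.

Joint work of helper192 with helper29, helper32, helper53, helper216, helper240, helper283,
helper287, helper348, helper366, helper513, helper571, helper584, helper585, helper636, helper644,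
helper648, helper692, helper768, helper822, helper856, helper883 and helper930.
-/

set_option autoImplicit false

open Complex

namespace Pool.Agent.Results.MP_347b49_nt.DihedralCentralValues

/-- The norm `N(I)` of an ideal (`0` for the zero ideal, whose residue ring is infinite). -/
noncomputable def norm {R : Subring ℂ} (I : Ideal R) : ℝ := (Nat.card (R ⧸ I) : ℝ)

/-- `ψ`, a function on the ideals of `R`, is a primitive ray class character of conductor `f`: it is
multiplicative, vanishes exactly at the zero ideal and the ideals not prime to `f`, satisfies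
`ψ((α)) = 1` for `α ≡ 1 mod f`, and this fails for every strictly larger ideal `f'` in place of
`f`. -/
structure IsRay {R : Subring ℂ} (f : Ideal R) (ψ : Ideal R → ℂ) : Prop where
  ne_bot : f ≠ ⊥
  mul : ∀ I J : Ideal R, ψ (I * J) = ψ I * ψ J
  eq_zero : ∀ I : Ideal R, ψ I = 0 ↔ (I = ⊥ ∨ ¬ IsCoprime I f)
  principal : ∀ α : R, α ≠ 0 → α - 1 ∈ f → ψ (Ideal.span {α}) = 1
  primitive : ∀ f' : Ideal R, f < f' → ∃ α : R, α ≠ 0 ∧ α - 1 ∈ f' ∧ IsCoprime (Ideal.span {α}) f ∧
    ψ (Ideal.span {α}) ≠ 1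

/-- `d` is the order of `χ`: the least positive integer with `χ(I) ^ d = 1` whenever `χ(I) ≠ 0`. -/
def IsOrder {R : Subring ℂ} (χ : Ideal R → ℂ) (d : ℕ) : Prop :=
  IsLeast {n : ℕ | 0 < n ∧ ∀ I : Ideal R, χ I ≠ 0 → χ I ^ n = 1} d

theorem isRay_iff {R : Subring ℂ} (f : Ideal R) (ψ : Ideal R → ℂ) :
    IsRay f ψ ↔ Pool.Agent.W192.HK.HC 0 f ψ :=
  ⟨fun h => ⟨h.ne_bot, h.mul, h.eq_zero, fun α h0 h1 => by rw [pow_zero]; exact h.principal α h0 h1,
      fun f' hf' => by
        obtain ⟨α, h0, h1, h2, h3⟩ := h.primitive f' hf'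
        exact ⟨α, h0, h1, h2, by rw [pow_zero]; exact h3⟩⟩,
    fun h => ⟨h.ne, h.mul, h.zero, fun α h0 h1 => by
        have := h.princ α h0 h1
        rwa [pow_zero] at this,
      fun f' hf' => by
        obtain ⟨α, h0, h1, h2, h3⟩ := h.prim f' hf'
        rw [pow_zero] at h3
        exact ⟨α, h0, h1, h2, h3⟩⟩⟩

theorem isOrder_iff {R : Subring ℂ} (χ : Ideal R → ℂ) (d : ℕ) :
    IsOrder χ d ↔ Pool.Agent.W192.HK.Od χ d :=
  ⟨fun h => ⟨h.1.1, h.1.2, fun _ hn h' => h.2 ⟨hn, h'⟩⟩,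
    fun h => ⟨⟨h.pos, h.pow⟩, fun _ hn => h.least _ hn.1 hn.2⟩⟩

theorem pw_eq {R : Subring ℂ} (χ : Ideal R → ℂ) {a : ℕ} (ha : a ≠ 0) :
    Pool.Agent.W192.HK.pw χ a = fun I => χ I ^ a := by
  funext I
  unfold Pool.Agent.W192.HK.pw
  split_ifs with h
  · rw [h, zero_pow ha]
  · rfl

/-- **Main theorem.** Let `R = ℤ + ℤ ω` be a subring of `ℂ` that is a lattice and a Dedekind domain,
and `ψ` a primitive ray class character of conductor `f` on the ideals of `R`.  For every primitive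
ray class character `χ` of conductor `c ≠ (1)` prime to `f` there is an entire function `L c χ` which
for `Re s > 1` is `∑ ψ(I) χ(I) N(I)^(-s)`; and for all `M ≥ 1` and `δ > 0` there is `N₀` such that for
all `c` prime to `f` with `N(c) ≥ N₀` and all such `χ` of order `d ≥ N(c)^(2/3 + δ)` there is `a ≥ 1`
prime to `d`, `a ≡ 1 mod M`, such that `χ ^ a` is primitive of conductor `c` and
`|L c (χ ^ a) (1/2)| ≥ N(c)^(-δ)`. -/
theorem result (R : Subring ℂ) (ω : ℂ) (hω : 0 < ω.im)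
    (hR : ∀ z : ℂ, z ∈ R ↔ ∃ x y : ℤ, z = x + y * ω) (hded : IsDedekindDomain R)
    (f : Ideal R) (ψ : Ideal R → ℂ) (hψ : IsRay f ψ) :
    ∃ L : Ideal R → (Ideal R → ℂ) → ℂ → ℂ,
      (∀ (c : Ideal R) (χ : Ideal R → ℂ), IsCoprime f c → c ≠ ⊤ → IsRay c χ →
        Differentiable ℂ (L c χ) ∧ ∀ s : ℂ, 1 < s.re →
          HasSum (fun I : Ideal R => ψ I * χ I * (norm I : ℂ) ^ (-s)) (L c χ s)) ∧
      ∀ M : ℕ, 1 ≤ M → ∀ δ : ℝ, 0 < δ → ∃ N0 : ℝ, ∀ (c : Ideal R) (χ : Ideal R → ℂ),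
        IsCoprime f c → IsRay c χ → N0 ≤ norm c → ∀ d : ℕ, IsOrder χ d →
          (norm c) ^ (2 / 3 + δ) ≤ d →
          ∃ a : ℕ, 1 ≤ a ∧ Nat.Coprime a d ∧ a ≡ 1 [MOD M] ∧ IsRay c (fun I => χ I ^ a) ∧
            (norm c) ^ (-δ) ≤ ‖L c (fun I => χ I ^ a) (1 / 2)‖ := by
  have hbasic := Pool.Agent.W287.HK.h_basic
  have hcls := Pool.Agent.W571.HK.h_cls hbasic
  have hfp := Pool.Agent.W53.HK.h_fp hbasic hcls
  have hfpr := Pool.Agent.W366.HK.h_fpr hbasic hcls
  have hlat := Pool.Agent.W585.HK.h_lat hbasic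
  have hker := Pool.Agent.W692.HK.h_ker hbasic hcls hfpr
  have hcnt := Pool.Agent.W584.HK.h_cnt hbasic hcls hfpr hlat hker
  have hdivr := Pool.Agent.W513.HK.h_divr hbasic
  have hmu := Pool.Agent.W822.HK.h_mu hbasic
  have hcount := Pool.Agent.W240.HK.h_count hbasic hcnt hdivr
  have htail := Pool.Agent.W883.HK.h_tail hbasic hcnt hcount
  have hmob := Pool.Agent.W930.HK.h_mob
  have hdiv := Pool.Agent.W216.CY.t_div
  have hmain := Pool.Agent.W648.HK.Mainp0.n_mainp hbasic hcnt hdivr htail hmob hdiv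
  have hdual := Pool.Agent.W240.HK.n_dualp hdiv hbasic hcnt hker hmob hfpr
  have hfinn := Pool.Agent.W768.HK.Finn0.n_finn hdiv hbasic hcnt hmu hmob hmain hdual hfpr
  have hdec := Pool.Agent.W856.HK.h_dec hbasic
  have hgauss := Pool.Agent.W636.HK.h_gauss hbasic hfp
  have hpois := Pool.Agent.W348.HK.h_pois hbasic
  have htheta := Pool.Agent.W644.HK.n_theta hbasic hfp hdec hgauss hpois hcnt
  have hafe := Pool.Agent.W283.HK.n_afe hbasic hfp hcnt hgauss htheta
  have hprod := Pool.Agent.W29.HK.h_prod hbasic hfp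
  have hpw := Pool.Agent.W283.HK.PW.h_pw hbasic
  obtain ⟨L, h1, h2⟩ := Pool.Agent.W192.HK.asm0 hbasic hcls hfpr Pool.Agent.W513.HK.n_v hafe hfinn
    hprod hpw ⟨hω, hR, hded⟩ f ψ ((isRay_iff _ _).1 hψ)
  refine ⟨L, fun c χ hc hc' hχ => h1 c χ hc hc' ((isRay_iff _ _).1 hχ), fun M hM δ hδ => ?_⟩
  obtain ⟨N0, hN0⟩ := h2 M hM δ hδ
  refine ⟨N0, fun c χ hc hχ hN d hd hdN => ?_⟩
  obtain ⟨a, ha0, ha1, ha2, ha3, ha4⟩ := hN0 c χ hc ((isRay_iff _ _).1 hχ) hN d
    ((isOrder_iff _ _).1 hd) hdN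
  rw [pw_eq χ (by omega)] at ha3 ha4
  exact ⟨a, ha0, ha1, ha2, (isRay_iff _ _).2 ha3, ha4⟩

end Pool.Agent.Results.MP_347b49_nt.DihedralCentralValues
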