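import Pool.Agent.W192.HL.AsmM
import Pool.Agent.W192.HL.Ms
import Pool.Agent.W765.HK.Pair
import Pool.Agent.W216.CY.Div
import Pool.Agent.W287.HK.Basic
import Pool.Agent.W571.HK.Cls
import Pool.Agent.W53.HK.Fp
import Pool.Agent.W366.HK.Fpr
import Pool.Agent.W585.HK.LAT
import Pool.Agent.W692.HK.Ker
import Pool.Agent.W584.HK.CNT
import Pool.Agent.W513.HK.Divr
import Pool.Agent.W822.HK.MU
import Pool.Agent.W240.HK.Count
import Pool.Agent.W883.HK.Tail
import Pool.Agent.W930.HK.Mob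
import Pool.Agent.W648.HK.Mainp0
import Pool.Agent.W240.HK.Dualp0
import Pool.Agent.W768.HK.Finn0
import Pool.Agent.W856.HK.Dec
import Pool.Agent.W636.HK.Gauss
import Pool.Agent.W348.HK.Pois
import Pool.Agent.W644.HK.Theta0
import Pool.Agent.W283.HK.AFE0
import Pool.Agent.W513.HK.V
import Pool.Agent.W29.HK.Prod
import Pool.Agent.W283.HK.PW

/-!
# Many nonvanishing dihedral central values in a Galois orbit

`R` is the ring of integers of an imaginary quadratic field `K` (any class number), `ψ` a fixed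
primitive ray class character of `K` of conductor `f`.  For all but finitely many primitive ray class
characters `χ` of `K` of conductor `c` prime to `f` and of order `d ≥ N(c) ^ (2/3 + ε)` at least
`d (d / N(c)) ^ (1/2) N(c) ^ (-ε)` of the Galois conjugates `χ ^ a` satisfy
`|L(ψ χ ^ a, 1/2)| ≥ N(c) ^ (-ε)`.  Here `L(ψ χ ^ a, s)` is the Artin L-function over `ℚ` of the
two-dimensional representation induced from `ψ χ ^ a`.

Joint work of helper192 with helper15, helper29, helper32, helper53, helper216, helper240, helper283,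
helper287, helper348, helper366, helper400, helper513, helper571, helper584, helper585, helper636,
helper644, helper648, helper692, helper765, helper768, helper822, helper836, helper856, helper883 and
helper930.
-/

set_option autoImplicit false

open Complex

namespace Pool.Agent.Results.MP_347b49_nt.ManyGaloisConjugates

/-- The norm `N(I)` of an ideal (`0` for the zero ideal, whose residue ring is infinite). -/
noncomputable def norm {R : Subring ℂ} (I : Ideal R) : ℝ := (Nat.card (R ⧸ I) : ℝ)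

/-- `ψ`, a function on the ideals of `R`, is a primitive ray class character of conductor `f`: it is
multiplicative, vanishes exactly at the zero ideal and the ideals not prime to `f`, satisfies
`ψ((α)) = 1` for `α ≡ 1 mod f`, and this fails for every strictly larger ideal `f'` in place of
`f`. -/
structure IsRay {R : Subring ℂ} (f : Ideal R) (ψ : Ideal R → ℂ) : Prop where
  ne_bot : f ≠ ⊥
  mul : ∀ I J : Ideal R, ψ (I * J) = ψ I * ψ J
  eq_zero : ∀ I : Ideal R, ψ I = 0 ↔ (I = ⊥ ∨ ¬ IsCoprime I f)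
  principal : ∀ α : R, α ≠ 0 → α - 1 ∈ f → ψ (Ideal.span {α}) = 1
  primitive : ∀ f' : Ideal R, f < f' → ∃ α : R, α ≠ 0 ∧ α - 1 ∈ f' ∧ IsCoprime (Ideal.span {α}) f ∧
    ψ (Ideal.span {α}) ≠ 1

/-- `d` is the order of `χ`: the least positive integer with `χ(I) ^ d = 1` whenever `χ(I) ≠ 0`. -/
def IsOrder {R : Subring ℂ} (χ : Ideal R → ℂ) (d : ℕ) : Prop :=
  IsLeast {n : ℕ | 0 < n ∧ ∀ I : Ideal R, χ I ≠ 0 → χ I ^ n = 1} d

theorem isRay_iff {R : Subring ℂ} (f : Ideal R) (ψ : Ideal R → ℂ) :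
    IsRay f ψ ↔ Pool.Agent.W192.HK.HC 0 f ψ :=
  ⟨fun h => ⟨h.ne_bot, h.mul, h.eq_zero, fun α h0 h1 => by rw [pow_zero]; exact h.principal α h0 h1,
      fun f' hf' => by
        obtain ⟨α, h0, h1, h2, h3⟩ := h.primitive f' hf'
        exact ⟨α, h0, h1, h2, by rw [pow_zero]; exact h3⟩⟩,
    fun h => ⟨h.ne, h.mul, h.zero, fun α h0 h1 => by
        have := h.princ α h0 h1
        rwa [pow_zero] at this,
      fun f' hf' => by
        obtain ⟨α, h0, h1, h2, h3⟩ := h.prim f' hf'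
        rw [pow_zero] at h3
        exact ⟨α, h0, h1, h2, h3⟩⟩⟩

theorem isOrder_iff {R : Subring ℂ} (χ : Ideal R → ℂ) (d : ℕ) :
    IsOrder χ d ↔ Pool.Agent.W192.HK.Od χ d :=
  ⟨fun h => ⟨h.1.1, h.1.2, fun _ hn h' => h.2 ⟨hn, h'⟩⟩,
    fun h => ⟨⟨h.pos, h.pow⟩, fun _ hn => h.least _ hn.1 hn.2⟩⟩

theorem pw_eq {R : Subring ℂ} (χ : Ideal R → ℂ) {a : ℕ} (ha : a ≠ 0) :
    Pool.Agent.W192.HK.pw χ a = fun I => χ I ^ a := by
  funext I
  unfold Pool.Agent.W192.HK.pw
  split_ifs with h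
  · rw [h, zero_pow ha]
  · rfl

/-- **Main theorem.** Let `R = ℤ + ℤ ω` be a subring of `ℂ` that is a lattice and a Dedekind domain,
and `ψ` a primitive ray class character of conductor `f` on the ideals of `R`.  For every primitive
ray class character `χ` of conductor `c ≠ (1)` prime to `f` there is an entire function `L c χ` which
for `Re s > 1` is `∑ ψ(I) χ(I) N(I)^(-s)`; and for every `ε > 0` there is `N₀` such that for all `c`
prime to `f` with `N(c) ≥ N₀` and all such `χ` of order `d ≥ N(c)^(2/3 + ε)`: for all `a` prime to `d`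
the power `χ ^ a` is primitive of conductor `c`, and at least `d N(c)^(-ε) (d/N(c))^(1/2)` of the `a`
modulo `d` are prime to `d` and satisfy `|L c (χ ^ a) (1/2)| ≥ N(c)^(-ε)`. -/
theorem result (R : Subring ℂ) (ω : ℂ) (hω : 0 < ω.im)
    (hR : ∀ z : ℂ, z ∈ R ↔ ∃ x y : ℤ, z = x + y * ω) (hded : IsDedekindDomain R)
    (f : Ideal R) (ψ : Ideal R → ℂ) (hψ : IsRay f ψ) :
    ∃ L : Ideal R → (Ideal R → ℂ) → ℂ → ℂ,
      (∀ (c : Ideal R) (χ : Ideal R → ℂ), IsCoprime f c → c ≠ ⊤ → IsRay c χ →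
        Differentiable ℂ (L c χ) ∧ ∀ s : ℂ, 1 < s.re →
          HasSum (fun I : Ideal R => ψ I * χ I * (norm I : ℂ) ^ (-s)) (L c χ s)) ∧
      ∀ ε : ℝ, 0 < ε → ∃ N0 : ℝ, ∀ (c : Ideal R) (χ : Ideal R → ℂ),
        IsCoprime f c → IsRay c χ → N0 ≤ norm c → ∀ d : ℕ, IsOrder χ d →
          (norm c) ^ (2 / 3 + ε) ≤ d →
          (∀ a : ℕ, Nat.Coprime a d → IsRay c (fun I => χ I ^ a)) ∧
          d * (norm c) ^ (-ε) * Real.sqrt (d / norm c) ≤
            (((Finset.range d).filter (fun a => Nat.Coprime a d ∧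
              (norm c) ^ (-ε) ≤ ‖L c (fun I => χ I ^ a) (1 / 2)‖)).card : ℝ) := by
  classical
  have hbasic := Pool.Agent.W287.HK.h_basic
  have hcls := Pool.Agent.W571.HK.h_cls hbasic
  have hfp := Pool.Agent.W53.HK.h_fp hbasic hcls
  have hfpr := Pool.Agent.W366.HK.h_fpr hbasic hcls
  have hlat := Pool.Agent.W585.HK.h_lat hbasic
  have hker := Pool.Agent.W692.HK.h_ker hbasic hcls hfpr
  have hcnt := Pool.Agent.W584.HK.h_cnt hbasic hcls hfpr hlat hker
  have hdivr := Pool.Agent.W513.HK.h_divr hbasic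
  have hmu := Pool.Agent.W822.HK.h_mu hbasic
  have hcount := Pool.Agent.W240.HK.h_count hbasic hcnt hdivr
  have htail := Pool.Agent.W883.HK.h_tail hbasic hcnt hcount
  have hmob := Pool.Agent.W930.HK.h_mob
  have hdiv := Pool.Agent.W216.CY.t_div
  have hmain := Pool.Agent.W648.HK.Mainp0.n_mainp hbasic hcnt hdivr htail hmob hdiv
  have hdual := Pool.Agent.W240.HK.n_dualp hdiv hbasic hcnt hker hmob hfpr
  have hpair := Pool.Agent.W765.HK.l_pair hbasic hcls hfpr hker
  have hms := Pool.Agent.W192.HL.ms hbasic hcnt hpair hfpr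
  have hdec := Pool.Agent.W856.HK.h_dec hbasic
  have hgauss := Pool.Agent.W636.HK.h_gauss hbasic hfp
  have hpois := Pool.Agent.W348.HK.h_pois hbasic
  have htheta := Pool.Agent.W644.HK.n_theta hbasic hfp hdec hgauss hpois hcnt
  have hafe := Pool.Agent.W283.HK.n_afe hbasic hfp hcnt hgauss htheta
  have hprod := Pool.Agent.W29.HK.h_prod hbasic hfp
  have hpw := Pool.Agent.W283.HK.PW.h_pw hbasic
  obtain ⟨L, h1, h2⟩ := Pool.Agent.W192.HL.asmM hdiv hbasic hcls hcnt hmu hmob hmain hdual hfpr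
    Pool.Agent.W513.HK.n_v hafe hms hgauss hprod hpw ⟨hω, hR, hded⟩ f ψ ((isRay_iff _ _).1 hψ)
  refine ⟨L, fun c χ hc hc' hχ => h1 c χ hc hc' ((isRay_iff _ _).1 hχ), fun ε hε => ?_⟩
  set η : ℝ := min (ε / 4) (1 / 24) with hη'
  have hη : 0 < η := lt_min (by linarith) (by norm_num)
  have hη1 : 4 * η ≤ ε := by
    have := min_le_left (ε / 4) (1 / 24 : ℝ)
    linarith
  have hη2 : η < 1 / 12 := lt_of_le_of_lt (min_le_right _ _) (by norm_num)
  obtain ⟨N0, hN0⟩ := h2 η hη hη2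
  refine ⟨max N0 1, fun c χ hc hχ hN d hd hdN => ?_⟩
  have hN1 : (1 : ℝ) ≤ Pool.Agent.W192.HK.nm c := (le_max_right _ _).trans hN
  have hNN : N0 ≤ Pool.Agent.W192.HK.nm c := (le_max_left _ _).trans hN
  have hdN' : (Pool.Agent.W192.HK.nm c) ^ (2 / 3 + η) ≤ (d : ℝ) :=
    (Real.rpow_le_rpow_of_exponent_le hN1 (by linarith)).trans hdN
  obtain ⟨hd2, hp, hcard⟩ := hN0 c χ hc ((isRay_iff _ _).1 hχ) hNN d ((isOrder_iff _ _).1 hd) hdN'
  have ha0 : ∀ a : ℕ, Nat.Coprime a d → a ≠ 0 := by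
    rintro a ha rfl
    rw [Nat.coprime_zero_left] at ha
    omega
  refine ⟨fun a ha => ?_, ?_⟩
  · rw [← pw_eq χ (ha0 a ha), isRay_iff]
    exact hp a ha
  have hle : (Pool.Agent.W192.HK.nm c) ^ (-ε) ≤ (Pool.Agent.W192.HK.nm c) ^ (-(4 * η)) :=
    Real.rpow_le_rpow_of_exponent_le hN1 (by linarith)
  have hle2 : (Pool.Agent.W192.HK.nm c) ^ (-ε) ≤ (Pool.Agent.W192.HK.nm c) ^ (-η) :=
    Real.rpow_le_rpow_of_exponent_le hN1 (by linarith)
  refine le_trans ?_ (hcard.trans ?_)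
  · change (d : ℝ) * (Pool.Agent.W192.HK.nm c) ^ (-ε) *
      Real.sqrt (d / Pool.Agent.W192.HK.nm c) ≤ _
    gcongr
  · have hsub : (Finset.range d).filter (fun a => Nat.Coprime a d ∧
        (Pool.Agent.W192.HK.nm c) ^ (-η) ≤ ‖L c (Pool.Agent.W192.HK.pw χ a) (1 / 2)‖) ⊆
        (Finset.range d).filter (fun a => Nat.Coprime a d ∧
          (norm c) ^ (-ε) ≤ ‖L c (fun I => χ I ^ a) (1 / 2)‖) := by
      intro a ha
      simp only [Finset.mem_filter] at ha ⊢
      obtain ⟨h3, h4, h5⟩ := ha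
      rw [pw_eq χ (ha0 a h4)] at h5
      exact ⟨h3, h4, hle2.trans h5⟩
    exact_mod_cast Finset.card_le_card hsub

end Pool.Agent.Results.MP_347b49_nt.ManyGaloisConjugates
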